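import Pool.Agent.Helper3.TG.GoalsTr

/-!
# Project TG (MP_a41896_nt), packet TRF: transfer
-/

set_option autoImplicit false

open MvPolynomial

namespace Pool.Agent.Helper67.TG.TRF

open WeierstrassCurve Height Height.AdmissibleAbsValues
open Pool.Agent.Helper29.BL Pool.Agent.Helper92.Ru Pool.Agent.Helper42.SG
open Pool.Agent.Helper5.UN (hv CodimGT cH)
open Pool.Agent.Helper60.HC

theorem t (h1 : Pool.Agent.Helper3.TG.LTRF) (h2 : Pool.Agent.Helper60.HC.S_CHB) :
    Pool.Agent.Helper3.TG.TRF := by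
  classical
  intro K _ _ w hw σ _ _ D ι _ f hdeg hcod a b hab
  obtain ⟨E, J, hJ, f', B, hdf', hcod', hB, hl⟩ := h1 K w hw σ D ι f hdeg hcod a b hab
  obtain ⟨c₁, -, hc₁⟩ := h2 K σ D ι f hdeg
  obtain ⟨c₂, -, hc₂⟩ := h2 K σ E J f' hdf'
  refine ⟨E, J, hJ, f', PS (fun v => Real.log (B v)), hdf', hcod',
    PS_nonneg hB.fin (fun v => Real.log_nonneg (hB.one_le v)), ?_⟩
  intro x y hTH hne
  have he : ∃ j, eval x (f j) ≠ 0 := by
    by_contra hcon
    push Not at hcon
    obtain ⟨j₀, hj₀⟩ := hne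
    have h3 := hl AbsoluteValue.trivial x y hTH
    have h4 : (⨆ j, (AbsoluteValue.trivial : AbsoluteValue K ℝ) (eval x (f j))) = 0 := by
      have h5 : (fun j => (AbsoluteValue.trivial : AbsoluteValue K ℝ) (eval x (f j))) =
          fun _ => 0 := by
        funext j
        rw [hcon j, map_zero]
      rw [h5]
      exact Real.iSup_const_zero
    rw [h4, mul_zero] at h3
    have h6 : 0 < (∏ i, Mv (AbsoluteValue.trivial : AbsoluteValue K ℝ) (x i)) ^ D :=
      pow_pos (Finset.prod_pos fun i _ => Mv_pos _ _) _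
    have h7 : (AbsoluteValue.trivial : AbsoluteValue K ℝ) (eval (Function.update x b y) (f' j₀)) ≤
        ⨆ j, (AbsoluteValue.trivial : AbsoluteValue K ℝ) (eval (Function.update x b y) (f' j)) :=
      le_ciSup (f := fun j => (AbsoluteValue.trivial : AbsoluteValue K ℝ)
        (eval (Function.update x b y) (f' j))) (Set.finite_range _).bddAbove j₀
    have h8 : 0 < (AbsoluteValue.trivial : AbsoluteValue K ℝ)
        (eval (Function.update x b y) (f' j₀)) := AbsoluteValue.pos _ hj₀
    exact absurd h3 (not_le.mpr (mul_pos (lt_of_lt_of_le h8 h7) h6))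
  refine ⟨he, ?_⟩
  -- local comparison
  have hloc : ∀ v : AbsoluteValue K ℝ,
      rhs f' E v (Function.update x b y) ≤ B v * rhs f D v x := by
    intro v
    have hM : 0 < (∏ i, Mv v (x i)) ^ D := pow_pos (Finset.prod_pos fun i _ => Mv_pos _ _) _
    have hMI : 0 < (∏ i, Mv v (Function.update x b y i)) ^ E :=
      pow_pos (Finset.prod_pos fun i _ => Mv_pos _ _) _
    have hB1 := hB.one_le v
    have hB0 : 0 < B v := lt_of_lt_of_le one_pos hB1
    have h3 := hl v x y hTH
    unfold rhs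
    rw [mul_min_of_nonneg _ _ hB0.le, mul_one]
    refine min_le_min hB1 ?_
    rw [div_le_iff₀ hMI, mul_comm (B v), mul_assoc, div_mul_eq_mul_div, le_div_iff₀ hM]
    refine h3.trans (le_of_eq ?_)
    ring
  obtain ⟨-, hF1, hS1, hp1⟩ := hc₁ x he
  obtain ⟨-, hF2, hS2, hp2⟩ := hc₂ (Function.update x b y) hne
  have h5 : PS (fun v => Real.log (rhs f' E v (Function.update x b y))) ≤
      PS (fun v => Real.log (B v) + Real.log (rhs f D v x)) := by
    refine PS_mono hF2 (hB.fin.add hF1) fun v => ?_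
    rw [← Real.log_mul (lt_of_lt_of_le one_pos (hB.one_le v)).ne' (hp1 v).1.ne']
    exact Real.log_le_log (hp2 v).1 (hloc v)
  rw [PS_add hB.fin hF1, hS1, hS2] at h5
  linarith

end Pool.Agent.Helper67.TG.TRF
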